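import Pool.Agent.helper68.SF.SpecE

/-!
Project SF (MP_d52931_gt), block se: module ENW: the weighted bound.
-/

set_option autoImplicit false

namespace SF

open MeasureTheory Filter Topology
open scoped ContDiff

theorem ENW_cont {f : ℝ → ℝ → ℝ → ℝ} (hf : Sm f) (s : ℝ) :
    ContinuousOn (fun p : ℝ × ℝ => f s p.1 p.2) {p | 0 < p.2} := by
  have h1 : ContinuousOn (fun p : ℝ × ℝ × ℝ => f p.1 p.2.1 p.2.2) {p | 0 < p.2.2} :=
    ContDiffOn.continuousOn hf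
  have h2 : Continuous (fun p : ℝ × ℝ => ((s, p.1, p.2) : ℝ × ℝ × ℝ)) := by fun_prop
  exact h1.comp h2.continuousOn (fun p hp => hp)

theorem ENW_meas : MeasurableSet Dm := by
  have h : Dm = {p : ℝ × ℝ | 0 < p.1} ∩ ({p | p.1 < 1 / 2} ∩ ({p | 0 < p.2} ∩
      {p | 1 < p.1 ^ 2 + p.2 ^ 2})) := by
    ext p
    rfl
  rw [h]
  refine (isOpen_lt continuous_const continuous_fst).measurableSet.inter
    ((isOpen_lt continuous_fst continuous_const).measurableSet.inter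
    ((isOpen_lt continuous_const continuous_snd).measurableSet.inter
    (isOpen_lt continuous_const (by fun_prop)).measurableSet))

/-- integrability of functions which vanish for large `y` -/
theorem ENW_ci (hDI : DI_stmt) (F : ℝ × ℝ → ℝ) (hF : ContinuousOn F {p | 0 < p.2}) (N : ℝ)
    (h : ∀ p : ℝ × ℝ, N < p.2 → F p = 0) : IntegrableOn F Dm := by
  have hK : IsCompact (Set.Icc (0 : ℝ) (1 / 2) ×ˢ Set.Icc (1 : ℝ) N) := isCompact_Icc.prod isCompact_Icc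
  obtain ⟨M, hM⟩ := hK.exists_bound_of_continuousOn (hF.mono (fun p hp => by
    have h1 : (1 : ℝ) ≤ p.2 := hp.2.1
    show (0 : ℝ) < p.2
    linarith))
  refine hDI F (|M| * N ^ 2) hF fun p hp hp1 => ?_
  obtain ⟨h1, h2, h3, h4⟩ := hp
  have h5 : 0 < p.2 ^ 2 := by positivity
  rw [le_div_iff₀ h5]
  by_cases h6 : p.2 ≤ N
  · have h7 := hM p ⟨⟨h1.le, h2.le⟩, ⟨hp1, h6⟩⟩
    rw [Real.norm_eq_abs] at h7
    have h8 : p.2 ^ 2 ≤ N ^ 2 := by
      apply pow_le_pow_left₀ h3.le h6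
    exact mul_le_mul (h7.trans (le_abs_self M)) h8 h5.le (abs_nonneg M)
  · rw [h p (not_le.1 h6), abs_zero, zero_mul]
    positivity

/-- the cutoff -/
noncomputable def ENWe (n : ℕ) (y : ℝ) : ℝ := Real.smoothTransition (2 - y / ((n : ℝ) + 1))

/-- its derivative -/
noncomputable def ENWd (n : ℕ) (y : ℝ) : ℝ :=
  deriv Real.smoothTransition (2 - y / ((n : ℝ) + 1)) * (-(1 / ((n : ℝ) + 1)))

theorem ENW_dc : Continuous (deriv Real.smoothTransition) :=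
  (Real.smoothTransition.contDiff (n := 1)).continuous_deriv le_rfl

theorem ENW_d0 (t : ℝ) (h : t < 0 ∨ 1 < t) : deriv Real.smoothTransition t = 0 := by
  rcases h with h | h
  · have h1 : Real.smoothTransition =ᶠ[𝓝 t] fun _ => 0 := by
      filter_upwards [Iio_mem_nhds h] with x hx
      exact Real.smoothTransition.zero_of_nonpos (le_of_lt hx)
    rw [h1.deriv_eq, deriv_const]
  · have h1 : Real.smoothTransition =ᶠ[𝓝 t] fun _ => 1 := by
      filter_upwards [Ioi_mem_nhds h] with x hx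
      exact Real.smoothTransition.one_of_one_le (le_of_lt hx)
    rw [h1.deriv_eq, deriv_const]

theorem ENW_K : ∃ K : ℝ, 0 ≤ K ∧ ∀ t, |deriv Real.smoothTransition t| ≤ K := by
  obtain ⟨K, hK⟩ := (isCompact_Icc (a := (0 : ℝ)) (b := 1)).exists_bound_of_continuousOn
    ENW_dc.continuousOn
  refine ⟨|K|, abs_nonneg K, fun t => ?_⟩
  by_cases h : t < 0 ∨ 1 < t
  · rw [ENW_d0 t h, abs_zero]
    exact abs_nonneg K
  · push Not at h
    exact (hK t ⟨h.1, h.2⟩).trans (le_abs_self K)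

theorem ENW_ed (n : ℕ) (y : ℝ) : HasDerivAt (ENWe n) (ENWd n y) y := by
  have h1 : HasDerivAt (fun y : ℝ => 2 - y / ((n : ℝ) + 1)) (-(1 / ((n : ℝ) + 1))) y := by
    have := ((hasDerivAt_id y).div_const ((n : ℝ) + 1)).const_sub 2
    simpa using this
  have h2 : HasDerivAt Real.smoothTransition
      (deriv Real.smoothTransition (2 - y / ((n : ℝ) + 1))) (2 - y / ((n : ℝ) + 1)) :=
    ((Real.smoothTransition.contDiff (n := 1)).differentiable (by norm_num) _).hasDerivAt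
  exact h2.comp y h1

theorem ENW_ec (n : ℕ) : Continuous (ENWe n) :=
  continuous_iff_continuousAt.2 fun y => (ENW_ed n y).continuousAt

theorem ENW_ddc (n : ℕ) : Continuous (ENWd n) := by
  unfold ENWd
  exact (ENW_dc.comp (by fun_prop)).mul continuous_const

theorem ENW_e0 (n : ℕ) (y : ℝ) (h : 2 * ((n : ℝ) + 1) < y) : ENWe n y = 0 := by
  apply Real.smoothTransition.zero_of_nonpos
  have h1 : (0 : ℝ) < (n : ℝ) + 1 := by positivity
  rw [sub_nonpos, le_div_iff₀ h1]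
  exact h.le

theorem ENW_e1 (n : ℕ) (y : ℝ) (h : y ≤ (n : ℝ) + 1) : ENWe n y = 1 := by
  apply Real.smoothTransition.one_of_one_le
  have h1 : (0 : ℝ) < (n : ℝ) + 1 := by positivity
  have h2 : y / ((n : ℝ) + 1) ≤ 1 := by
    rw [div_le_one h1]
    exact h
  linarith

theorem ENW_dz (n : ℕ) (y : ℝ) (h : 2 * ((n : ℝ) + 1) < y ∨ y < (n : ℝ) + 1) : ENWd n y = 0 := by
  have h1 : (0 : ℝ) < (n : ℝ) + 1 := by positivity
  unfold ENWd
  rw [ENW_d0, zero_mul]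
  rcases h with h | h
  · left
    have : 2 < y / ((n : ℝ) + 1) := by
      rw [lt_div_iff₀ h1]
      exact h
    linarith
  · right
    have : y / ((n : ℝ) + 1) < 1 := by
      rw [div_lt_one h1]
      exact h
    linarith

theorem ENW_db (K : ℝ) (hK0 : 0 ≤ K) (hK : ∀ t, |deriv Real.smoothTransition t| ≤ K) (n : ℕ) (y : ℝ)
    (hy : 0 < y) : |ENWd n y| ≤ 2 * K / y := by
  have h1 : (0 : ℝ) < (n : ℝ) + 1 := by positivity
  by_cases h : 2 * ((n : ℝ) + 1) < y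
  · rw [ENW_dz n y (Or.inl h), abs_zero]
    positivity
  · have h2 : 1 / ((n : ℝ) + 1) ≤ 2 / y := by
      rw [div_le_div_iff₀ h1 hy]
      linarith
    unfold ENWd
    rw [abs_mul, abs_neg, abs_of_pos (by positivity : (0 : ℝ) < 1 / ((n : ℝ) + 1))]
    calc |deriv Real.smoothTransition (2 - y / ((n : ℝ) + 1))| * (1 / ((n : ℝ) + 1))
        ≤ K * (2 / y) := mul_le_mul (hK _) h2 (by positivity) hK0
      _ = 2 * K / y := by ring

/-- the main identity, with cutoff -/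
theorem ENW_id (hBS : BS_stmt) (hDI : DI_stmt) (hDX : DX_stmt) (hDY : DY_stmt) (hEZ : EZ_stmt)
    (f : ℝ → ℝ → ℝ → ℝ) (hf : EW f) (s : ℝ) (n : ℕ) :
    ∫ p in Dm, (ENWe n p.2 * (p.2 ^ 2 * ((dX f s p.1 p.2) ^ 2 + (dY f s p.1 p.2) ^ 2) +
      f s p.1 p.2 * ((dS (dS f) s p.1 p.2 - f s p.1 p.2) / 4) - (f s p.1 p.2) ^ 2) +
      ENWd n p.2 * (p.2 ^ 2 * f s p.1 p.2 * dY f s p.1 p.2 - p.2 * (f s p.1 p.2) ^ 2)) = 0 := by
  obtain ⟨hS, hX, hY, hder⟩ := hBS f hf.sm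
  obtain ⟨-, hXX, -, hderX⟩ := hBS _ hX
  obtain ⟨-, -, hYY, hderY⟩ := hBS _ hY
  have c0 := ENW_cont hf.sm s
  have cX := ENW_cont hX s
  have cY := ENW_cont hY s
  have cXX := ENW_cont hXX s
  have cYY := ENW_cont hYY s
  have ce : ContinuousOn (fun p : ℝ × ℝ => ENWe n p.2) {p | 0 < p.2} :=
    ((ENW_ec n).comp continuous_snd).continuousOn
  have cd : ContinuousOn (fun p : ℝ × ℝ => ENWd n p.2) {p | 0 < p.2} :=
    ((ENW_ddc n).comp continuous_snd).continuousOn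
  have cy : ContinuousOn (fun p : ℝ × ℝ => p.2) {p | 0 < p.2} := continuous_snd.continuousOn
  -- the first integral
  obtain ⟨F1, hF1⟩ : ∃ F1 : ℝ × ℝ → ℝ, F1 = fun p => ENWe n p.2 * (p.2 ^ 2 * ((dX f s p.1 p.2) ^ 2 +
    f s p.1 p.2 * dX (dX f) s p.1 p.2)) := ⟨_, rfl⟩
  obtain ⟨F2, hF2⟩ : ∃ F2 : ℝ × ℝ → ℝ, F2 = fun p => ENWe n p.2 * (p.2 ^ 2 * (dY f s p.1 p.2) ^ 2 +
    p.2 ^ 2 * f s p.1 p.2 * dY (dY f) s p.1 p.2 - (f s p.1 p.2) ^ 2) +
    ENWd n p.2 * (p.2 ^ 2 * f s p.1 p.2 * dY f s p.1 p.2 - p.2 * (f s p.1 p.2) ^ 2) := ⟨_, rfl⟩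
  have cF1 : ContinuousOn F1 {p | 0 < p.2} := by
    rw [hF1]
    exact ce.mul ((cy.pow 2).mul ((cX.pow 2).add (c0.mul cXX)))
  have cF2 : ContinuousOn F2 {p | 0 < p.2} := by
    rw [hF2]
    exact (ce.mul ((((cy.pow 2).mul (cY.pow 2)).add (((cy.pow 2).mul c0).mul cYY)).sub
      (c0.pow 2))).add (cd.mul ((((cy.pow 2).mul c0).mul cY).sub (cy.mul (c0.pow 2))))
  have i1 : IntegrableOn F1 Dm := by
    refine ENW_ci hDI F1 cF1 (2 * ((n : ℝ) + 1)) fun p hp => ?_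
    rw [hF1]
    show ENWe n p.2 * _ = 0
    rw [ENW_e0 n p.2 hp, zero_mul]
  have i2 : IntegrableOn F2 Dm := by
    refine ENW_ci hDI F2 cF2 (2 * ((n : ℝ) + 1)) fun p hp => ?_
    rw [hF2]
    show ENWe n p.2 * _ + ENWd n p.2 * _ = 0
    rw [ENW_e0 n p.2 hp, ENW_dz n p.2 (Or.inl hp), zero_mul, zero_mul, add_zero]
  have z1 : ∫ p in Dm, F1 p = 0 := by
    refine hDX (fun p => ENWe n p.2 * (p.2 ^ 2 * (f s p.1 p.2 * dX f s p.1 p.2))) F1 cF1 ?_ ?_ ?_ i1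
    · intro x y hy
      have d1 := (hder s x y hy).2.1
      have d2 := (hderX s x y hy).2.1
      have d3 := ((d1.fun_mul d2).const_mul (y ^ 2)).const_mul (ENWe n y)
      rw [hF1]
      refine d3.congr_deriv ?_
      ring
    · intro y hy
      obtain ⟨b1, b2, -, -⟩ := hEZ f hf s y hy
      constructor
      · show ENWe n y * (y ^ 2 * (f s 0 y * _)) = 0
        rw [b1]
        ring
      · show ENWe n y * (y ^ 2 * (f s (1 / 2) y * _)) = 0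
        rw [b2]
        ring
    · intro x y hy hxy
      obtain ⟨-, -, b3, -⟩ := hEZ f hf s y hy
      show ENWe n y * (y ^ 2 * (f s x y * _)) = 0
      rw [b3 x hxy]
      ring
  have z2 : ∫ p in Dm, F2 p = 0 := by
    refine hDY (fun p => ENWe n p.2 * (p.2 ^ 2 * f s p.1 p.2 * dY f s p.1 p.2 -
      p.2 * (f s p.1 p.2) ^ 2)) F2 cF2 ?_ ?_ ?_ i2
    · intro x y hy
      have d1 := (hder s x y hy).2.2.1
      have d2 := (hderY s x y hy).2.2.1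
      have e1 := ENW_ed n y
      have y1 : HasDerivAt (fun t : ℝ => t) 1 y := hasDerivAt_id y
      have y2 : HasDerivAt (fun t : ℝ => t ^ 2) (2 * y) y := by
        simpa using hasDerivAt_pow 2 y
      have f2 : HasDerivAt (fun t : ℝ => (f s x t) ^ 2) (2 * f s x y * dY f s x y) y := by
        have := d1.fun_pow 2
        simpa using this
      have d3 := e1.fun_mul (((y2.fun_mul d1).fun_mul d2).fun_sub (y1.fun_mul f2))
      rw [hF2]
      refine d3.congr_deriv ?_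
      ring
    · intro x y hy hxy
      obtain ⟨-, -, b3, -⟩ := hEZ f hf s y hy
      show ENWe n y * (y ^ 2 * f s x y * _ - y * (f s x y) ^ 2) = 0
      rw [b3 x hxy]
      ring
    · intro x
      refine tendsto_const_nhds.congr' ?_
      filter_upwards [eventually_gt_atTop (2 * ((n : ℝ) + 1))] with y hy
      show (0 : ℝ) = ENWe n y * _
      rw [ENW_e0 n y hy, zero_mul]
  have z3 : ∫ p in Dm, (F1 p + F2 p) = 0 := by
    rw [integral_add i1 i2, z1, z2, add_zero]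
  rw [← z3]
  refine setIntegral_congr_fun ENW_meas fun p hp => ?_
  have hy : 0 < p.2 := hp.2.2.1
  have hw := hf.wv s p.1 p.2 hy
  rw [hF1, hF2]
  show _ = ENWe n p.2 * (p.2 ^ 2 * ((dX f s p.1 p.2) ^ 2 +
    f s p.1 p.2 * dX (dX f) s p.1 p.2)) + (ENWe n p.2 * (p.2 ^ 2 * (dY f s p.1 p.2) ^ 2 +
    p.2 ^ 2 * f s p.1 p.2 * dY (dY f) s p.1 p.2 - (f s p.1 p.2) ^ 2) +
    ENWd n p.2 * (p.2 ^ 2 * f s p.1 p.2 * dY f s p.1 p.2 - p.2 * (f s p.1 p.2) ^ 2))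
  show ENWe n p.2 * (p.2 ^ 2 * ((dX f s p.1 p.2) ^ 2 + (dY f s p.1 p.2) ^ 2) +
      f s p.1 p.2 * ((dS (dS f) s p.1 p.2 - f s p.1 p.2) / 4) - (f s p.1 p.2) ^ 2) +
      ENWd n p.2 * (p.2 ^ 2 * f s p.1 p.2 * dY f s p.1 p.2 - p.2 * (f s p.1 p.2) ^ 2) = _
  rw [hw]
  ring

theorem ENW (hBS : BS_stmt) (hDI : DI_stmt) (hDX : DX_stmt) (hDY : DY_stmt) (hEZ : EZ_stmt)
    (hPOI : POI_stmt) (hENL : ENL_stmt) (hEWC : EWC_stmt) : ENW_stmt := by
  intro f hf s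
  obtain ⟨hS, hX, hY, hder⟩ := hBS f hf.sm
  obtain ⟨hSS, -, -, -⟩ := hBS _ hS
  have hf2 : EW (dS (dS f)) := hEWC.1 _ (hEWC.1 _ hf)
  have c0 := ENW_cont hf.sm s
  have cX := ENW_cont hX s
  have cY := ENW_cont hY s
  have cSS := ENW_cont hSS s
  have cy : ContinuousOn (fun p : ℝ × ℝ => p.2) {p | 0 < p.2} := continuous_snd.continuousOn
  obtain ⟨C0, hC0⟩ := hf.dec 0 |s|
  obtain ⟨C2, hC2⟩ := hf.dec 2 |s|
  have b0 : ∀ x y : ℝ, 1 ≤ y → |f s x y| ≤ C0 / y := fun x y hy => (hC0 s x y le_rfl hy).1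
  have bX : ∀ x y : ℝ, 1 ≤ y → |dX f s x y| ≤ C0 / y ^ 2 := fun x y hy => (hC0 s x y le_rfl hy).2.1
  have bY : ∀ x y : ℝ, 1 ≤ y → |dY f s x y| ≤ C0 / y ^ 2 := fun x y hy => (hC0 s x y le_rfl hy).2.2
  have bSS : ∀ x y : ℝ, 1 ≤ y → |dS (dS f) s x y| ≤ C2 / y := fun x y hy => (hC2 s x y le_rfl hy).1
  have C0n : 0 ≤ C0 := by
    have := (abs_nonneg _).trans (b0 0 1 le_rfl)
    simpa using this
  have C2n : 0 ≤ C2 := by
    have := (abs_nonneg _).trans (bSS 0 1 le_rfl)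
    simpa using this
  -- integrability
  have iG : IntegrableOn (fun p : ℝ × ℝ => p.2 ^ 2 * ((dX f s p.1 p.2) ^ 2 +
      (dY f s p.1 p.2) ^ 2)) Dm := by
    refine hDI _ (2 * C0 ^ 2) ((cy.pow 2).mul ((cX.pow 2).add (cY.pow 2))) fun p _ hp1 => ?_
    have hy : 0 < p.2 := by linarith
    have h1 := bX p.1 p.2 hp1
    have h2 := bY p.1 p.2 hp1
    have h3 : (dX f s p.1 p.2) ^ 2 ≤ (C0 / p.2 ^ 2) ^ 2 := by
      rw [← sq_abs]
      exact pow_le_pow_left₀ (abs_nonneg _) h1 2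
    have h4 : (dY f s p.1 p.2) ^ 2 ≤ (C0 / p.2 ^ 2) ^ 2 := by
      rw [← sq_abs]
      exact pow_le_pow_left₀ (abs_nonneg _) h2 2
    rw [abs_of_nonneg (by positivity)]
    calc p.2 ^ 2 * ((dX f s p.1 p.2) ^ 2 + (dY f s p.1 p.2) ^ 2)
        ≤ p.2 ^ 2 * ((C0 / p.2 ^ 2) ^ 2 + (C0 / p.2 ^ 2) ^ 2) := by gcongr
      _ = 2 * C0 ^ 2 / p.2 ^ 2 := by
        field_simp
        ring
  have iX : IntegrableOn (fun p : ℝ × ℝ => p.2 ^ 2 * (dX f s p.1 p.2) ^ 2) Dm := by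
    refine hDI _ (C0 ^ 2) ((cy.pow 2).mul (cX.pow 2)) fun p _ hp1 => ?_
    have hy : 0 < p.2 := by linarith
    have h1 := bX p.1 p.2 hp1
    have h3 : (dX f s p.1 p.2) ^ 2 ≤ (C0 / p.2 ^ 2) ^ 2 := by
      rw [← sq_abs]
      exact pow_le_pow_left₀ (abs_nonneg _) h1 2
    rw [abs_of_nonneg (by positivity)]
    calc p.2 ^ 2 * (dX f s p.1 p.2) ^ 2 ≤ p.2 ^ 2 * (C0 / p.2 ^ 2) ^ 2 := by gcongr
      _ = C0 ^ 2 / p.2 ^ 2 := by
        field_simp
  obtain ⟨i0, p0⟩ := hPOI 2 (fun p => f s p.1 p.2) (fun p => dX f s p.1 p.2) c0 cX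
    (fun x y hy => (hder s x y hy).2.1) (fun y hy => (hEZ f hf s y hy).2.1) iX
  refine ⟨iG, i0, ?_⟩
  obtain ⟨-, -, iu, eu, en⟩ := hENL f hf s
  obtain ⟨-, -, ig, eg, eng⟩ := hENL _ hf2 s
  have iug : IntegrableOn (fun p : ℝ × ℝ => f s p.1 p.2 * dS (dS f) s p.1 p.2) Dm := by
    refine hDI _ (C0 * C2) (c0.mul cSS) fun p _ hp1 => ?_
    have hy : 0 < p.2 := by linarith
    rw [abs_mul]
    calc |f s p.1 p.2| * |dS (dS f) s p.1 p.2| ≤ (C0 / p.2) * (C2 / p.2) :=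
          mul_le_mul (b0 _ _ hp1) (bSS _ _ hp1) (abs_nonneg _) (by positivity)
      _ = C0 * C2 / p.2 ^ 2 := by
        field_simp
  -- the limit
  obtain ⟨H, hH⟩ : ∃ H : ℝ × ℝ → ℝ, H = fun p => p.2 ^ 2 * ((dX f s p.1 p.2) ^ 2 +
      (dY f s p.1 p.2) ^ 2) + f s p.1 p.2 * ((dS (dS f) s p.1 p.2 - f s p.1 p.2) / 4) -
      (f s p.1 p.2) ^ 2 := ⟨_, rfl⟩
  have cH : ContinuousOn H {p | 0 < p.2} := by
    rw [hH]
    exact (((cy.pow 2).mul ((cX.pow 2).add (cY.pow 2))).add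
      (c0.mul ((cSS.sub c0).div_const 4))).sub (c0.pow 2)
  have iH : IntegrableOn H Dm := by
    have h1 : IntegrableOn (fun p : ℝ × ℝ => p.2 ^ 2 * ((dX f s p.1 p.2) ^ 2 +
        (dY f s p.1 p.2) ^ 2) + (1 / 4 * (f s p.1 p.2 * dS (dS f) s p.1 p.2) -
        5 / 4 * (f s p.1 p.2) ^ 2)) Dm :=
      iG.add ((iug.const_mul (1 / 4)).sub (iu.const_mul (5 / 4)))
    have h2 : H = fun p : ℝ × ℝ => p.2 ^ 2 * ((dX f s p.1 p.2) ^ 2 +
        (dY f s p.1 p.2) ^ 2) + (1 / 4 * (f s p.1 p.2 * dS (dS f) s p.1 p.2) -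
        5 / 4 * (f s p.1 p.2) ^ 2) := by
      rw [hH]
      funext p
      ring
    rw [h2]
    exact h1
  obtain ⟨K, hK0, hK⟩ := ENW_K
  obtain ⟨W, hW⟩ : ∃ W : ℝ × ℝ → ℝ, W = fun p => p.2 ^ 2 * f s p.1 p.2 * dY f s p.1 p.2 -
    p.2 * (f s p.1 p.2) ^ 2 := ⟨_, rfl⟩
  have cW : ContinuousOn W {p | 0 < p.2} := by
    rw [hW]
    exact (((cy.pow 2).mul c0).mul cY).sub (cy.mul (c0.pow 2))
  have bW : ∀ p : ℝ × ℝ, 1 ≤ p.2 → |W p| ≤ 2 * C0 ^ 2 / p.2 := by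
    intro p hp1
    have hy : 0 < p.2 := by linarith
    rw [hW]
    have h1 := b0 p.1 p.2 hp1
    have h2 := bY p.1 p.2 hp1
    have h3 : |p.2 ^ 2 * f s p.1 p.2 * dY f s p.1 p.2| ≤ C0 ^ 2 / p.2 := by
      rw [abs_mul, abs_mul, abs_of_pos (by positivity : (0 : ℝ) < p.2 ^ 2)]
      calc p.2 ^ 2 * |f s p.1 p.2| * |dY f s p.1 p.2| ≤ p.2 ^ 2 * (C0 / p.2) * (C0 / p.2 ^ 2) := by
            gcongr
        _ = C0 ^ 2 / p.2 := by
          field_simp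
    have h4 : |p.2 * (f s p.1 p.2) ^ 2| ≤ C0 ^ 2 / p.2 := by
      rw [abs_mul, abs_of_pos hy, abs_pow]
      calc p.2 * |f s p.1 p.2| ^ 2 ≤ p.2 * (C0 / p.2) ^ 2 := by gcongr
        _ = C0 ^ 2 / p.2 := by
          field_simp
    calc |p.2 ^ 2 * f s p.1 p.2 * dY f s p.1 p.2 - p.2 * (f s p.1 p.2) ^ 2|
        ≤ |p.2 ^ 2 * f s p.1 p.2 * dY f s p.1 p.2| + |p.2 * (f s p.1 p.2) ^ 2| := abs_sub _ _
      _ ≤ C0 ^ 2 / p.2 + C0 ^ 2 / p.2 := add_le_add h3 h4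
      _ = 2 * C0 ^ 2 / p.2 := by ring
  have iR : IntegrableOn (fun p : ℝ × ℝ => 4 * K * C0 ^ 2 / p.2 ^ 2) Dm := by
    refine hDI _ (4 * K * C0 ^ 2) ?_ fun p _ hp1 => ?_
    · exact continuousOn_const.div (cy.pow 2) (fun p hp => by
        have : (0 : ℝ) < p.2 := hp
        positivity)
    · rw [abs_of_nonneg (by positivity)]
  have ce : ∀ n, ContinuousOn (fun p : ℝ × ℝ => ENWe n p.2) {p | 0 < p.2} := fun n =>
    ((ENW_ec n).comp continuous_snd).continuousOn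
  have cd : ∀ n, ContinuousOn (fun p : ℝ × ℝ => ENWd n p.2) {p | 0 < p.2} := fun n =>
    ((ENW_ddc n).comp continuous_snd).continuousOn
  have hsub : Dm ⊆ {p : ℝ × ℝ | 0 < p.2} := fun p hp => hp.2.2.1
  have hlim : Tendsto (fun n : ℕ => ∫ p in Dm, (ENWe n p.2 * H p + ENWd n p.2 * W p)) atTop
      (𝓝 (∫ p in Dm, H p)) := by
    refine tendsto_integral_of_dominated_convergence
      (fun p => |H p| + 4 * K * C0 ^ 2 / p.2 ^ 2) ?_ ?_ ?_ ?_
    · intro n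
      exact (((ce n).mul cH).add ((cd n).mul cW)).mono hsub |>.aestronglyMeasurable ENW_meas
    · exact iH.norm.add iR
    · intro n
      refine (ae_restrict_iff' ENW_meas).2 (Eventually.of_forall fun p hp => ?_)
      have hy : 0 < p.2 := hsub hp
      rw [Real.norm_eq_abs]
      have h1 : |ENWe n p.2 * H p| ≤ |H p| := by
        have hnn : 0 ≤ ENWe n p.2 := Real.smoothTransition.nonneg _
        have hle : ENWe n p.2 ≤ 1 := Real.smoothTransition.le_one _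
        rw [abs_mul, abs_of_nonneg hnn]
        exact mul_le_of_le_one_left (abs_nonneg _) hle
      have h2 : |ENWd n p.2 * W p| ≤ 4 * K * C0 ^ 2 / p.2 ^ 2 := by
        by_cases h3 : 1 ≤ p.2
        · rw [abs_mul]
          calc |ENWd n p.2| * |W p| ≤ (2 * K / p.2) * (2 * C0 ^ 2 / p.2) :=
                mul_le_mul (ENW_db K hK0 hK n p.2 hy) (bW p h3) (abs_nonneg _) (by positivity)
            _ = 4 * K * C0 ^ 2 / p.2 ^ 2 := by
              field_simp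
              ring
        · rw [ENW_dz n p.2 (Or.inr (by
            have : (0 : ℝ) ≤ (n : ℝ) := Nat.cast_nonneg n
            push Not at h3
            linarith)), zero_mul, abs_zero]
          positivity
      exact (abs_add_le _ _).trans (add_le_add h1 h2)
    · refine (ae_restrict_iff' ENW_meas).2 (Eventually.of_forall fun p hp => ?_)
      refine tendsto_const_nhds.congr' ?_
      obtain ⟨m, hm⟩ := exists_nat_gt p.2
      filter_upwards [eventually_ge_atTop m] with n hn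
      have h1 : p.2 < (n : ℝ) + 1 := by
        have : (m : ℝ) ≤ n := by exact_mod_cast hn
        linarith
      rw [ENW_e1 n p.2 h1.le, ENW_dz n p.2 (Or.inr h1)]
      ring
  have hz : ∀ n : ℕ, ∫ p in Dm, (ENWe n p.2 * H p + ENWd n p.2 * W p) = 0 := by
    intro n
    have := ENW_id hBS hDI hDX hDY hEZ f hf s n
    rw [hH, hW]
    exact this
  have hH0 : ∫ p in Dm, H p = 0 := by
    refine tendsto_nhds_unique hlim ?_
    simp_rw [hz]
    exact tendsto_const_nhds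
  -- the identity
  have e1 : ∫ p in Dm, p.2 ^ 2 * ((dX f s p.1 p.2) ^ 2 + (dY f s p.1 p.2) ^ 2) =
      5 / 4 * (∫ p in Dm, (f s p.1 p.2) ^ 2) -
        1 / 4 * ∫ p in Dm, f s p.1 p.2 * dS (dS f) s p.1 p.2 := by
    have h1 : ∫ p in Dm, H p = (∫ p in Dm, p.2 ^ 2 * ((dX f s p.1 p.2) ^ 2 + (dY f s p.1 p.2) ^ 2)) +
        (1 / 4 * (∫ p in Dm, f s p.1 p.2 * dS (dS f) s p.1 p.2) -
        5 / 4 * (∫ p in Dm, (f s p.1 p.2) ^ 2)) := by
      have i4 : IntegrableOn (fun p : ℝ × ℝ => 1 / 4 * (f s p.1 p.2 * dS (dS f) s p.1 p.2) -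
          5 / 4 * (f s p.1 p.2) ^ 2) Dm := (iug.const_mul (1 / 4)).sub (iu.const_mul (5 / 4))
      rw [← integral_const_mul, ← integral_const_mul,
        ← integral_sub (iug.const_mul (1 / 4)) (iu.const_mul (5 / 4)),
        ← integral_add iG i4]
      refine integral_congr_ae (Eventually.of_forall fun p => ?_)
      rw [hH]
      show _ = p.2 ^ 2 * ((dX f s p.1 p.2) ^ 2 +
        (dY f s p.1 p.2) ^ 2) + (1 / 4 * (f s p.1 p.2 * dS (dS f) s p.1 p.2) -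
        5 / 4 * (f s p.1 p.2) ^ 2)
      ring
    rw [hH0] at h1
    linarith
  -- bound of the mixed term
  have e2 : -(∫ p in Dm, f s p.1 p.2 * dS (dS f) s p.1 p.2) ≤
      1 / 2 * (∫ p in Dm, (f s p.1 p.2) ^ 2) + 1 / 2 * ∫ p in Dm, (dS (dS f) s p.1 p.2) ^ 2 := by
    rw [← integral_neg, ← integral_const_mul, ← integral_const_mul,
      ← integral_add (iu.const_mul (1 / 2)) (ig.const_mul (1 / 2))]
    refine integral_mono iug.neg ((iu.const_mul (1 / 2)).add (ig.const_mul (1 / 2))) fun p => ?_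
    show -(f s p.1 p.2 * dS (dS f) s p.1 p.2) ≤
      1 / 2 * (f s p.1 p.2) ^ 2 + 1 / 2 * (dS (dS f) s p.1 p.2) ^ 2
    nlinarith [sq_nonneg (f s p.1 p.2 + dS (dS f) s p.1 p.2)]
  have e3 : ∫ p in Dm, p.2 ^ 2 * (dX f s p.1 p.2) ^ 2 ≤
      ∫ p in Dm, p.2 ^ 2 * ((dX f s p.1 p.2) ^ 2 + (dY f s p.1 p.2) ^ 2) := by
    refine integral_mono iX iG fun p => ?_
    show p.2 ^ 2 * (dX f s p.1 p.2) ^ 2 ≤
      p.2 ^ 2 * ((dX f s p.1 p.2) ^ 2 + (dY f s p.1 p.2) ^ 2)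
    have : 0 ≤ (dY f s p.1 p.2) ^ 2 := sq_nonneg _
    have h2 : 0 ≤ p.2 ^ 2 := sq_nonneg _
    nlinarith
  have e4 : ∫ p in Dm, p.2 ^ 2 * ((f s p.1 p.2) ^ 2 + (dX f s p.1 p.2) ^ 2 +
      (dY f s p.1 p.2) ^ 2) = (∫ p in Dm, p.2 ^ 2 * (f s p.1 p.2) ^ 2) +
      ∫ p in Dm, p.2 ^ 2 * ((dX f s p.1 p.2) ^ 2 + (dY f s p.1 p.2) ^ 2) := by
    rw [← integral_add i0 iG]
    refine integral_congr_ae (Eventually.of_forall fun p => ?_)
    show _ = p.2 ^ 2 * (f s p.1 p.2) ^ 2 +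
      p.2 ^ 2 * ((dX f s p.1 p.2) ^ 2 + (dY f s p.1 p.2) ^ 2)
    ring
  rw [e4]
  have p0' : ∫ p in Dm, p.2 ^ 2 * (f s p.1 p.2) ^ 2 ≤
    1 / 8 * ∫ p in Dm, p.2 ^ 2 * (dX f s p.1 p.2) ^ 2 := p0
  have eg' : ∫ p in Dm, (dS (dS f) s p.1 p.2) ^ 2 ≤ En (dS (dS f)) s := eg
  linarith

end SF
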