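import Pool.Agent.helper68.SF.SpecJ

/-!
Project SF (MP_d52931_gt), block sj: module JN: near periods of the cone function.
-/

set_option autoImplicit false

namespace SF

open MeasureTheory Set
open scoped ContDiff Topology

theorem JN_out (g : ℝ → ℝ) (hg : Prof g) (j : ℕ) (a : ℝ) (ha : a < 1 ∨ 3 < a) :
    iteratedDeriv j g a = 0 := by
  have h1 : g =ᶠ[𝓝 a] fun _ => 0 := by
    rcases ha with ha | ha
    · filter_upwards [Iio_mem_nhds ha] with x hx
      exact hg.lo x (le_of_lt hx)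
    · filter_upwards [Ioi_mem_nhds ha] with x hx
      exact hg.hi x (le_of_lt hx)
  rw [(h1.iteratedDeriv j).eq_of_nhds]
  exact iteratedDeriv_fun_const_zero

theorem JN_bd1 (g : ℝ → ℝ) (hg : Prof g) (j : ℕ) : ∃ B : ℝ, 0 ≤ B ∧ ∀ a, |iteratedDeriv j g a| ≤ B := by
  have hc : Continuous (iteratedDeriv j g) := by
    refine hg.smooth.continuous_iteratedDeriv j ?_
    exact_mod_cast le_top
  obtain ⟨K, hK⟩ := (isCompact_Icc (a := (1 : ℝ)) (b := 3)).exists_bound_of_continuousOn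
    hc.continuousOn
  refine ⟨|K|, abs_nonneg K, fun a => ?_⟩
  by_cases h : a < 1 ∨ 3 < a
  · rw [JN_out g hg j a h, abs_zero]
    exact abs_nonneg K
  · push Not at h
    exact (hK a ⟨h.1, h.2⟩).trans (le_abs_self K)

theorem JN_bd (g : ℝ → ℝ) (hg : Prof g) (k : ℕ) : ∃ B : ℝ, Bd k B g := by
  choose B hB0 hB using JN_bd1 g hg
  refine ⟨∑ j ∈ Finset.range (k + 1), B j, fun j hj a => (hB j a).trans ?_⟩
  exact Finset.single_le_sum (f := B) (fun i _ => hB0 i) (Finset.mem_range.2 (by omega))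

theorem JN_shift (f f' : ℝ → ℝ → ℝ) (B h : ℝ) (hf : FD f f' B) :
    FD (fun s y => f (s + h) y) (fun s y => f' (s + h) y) B := by
  have hc : Continuous (fun p : ℝ × ℝ => ((p.1 + h, p.2) : ℝ × ℝ)) := by fun_prop
  refine ⟨?_, ?_, ?_, fun s y hy => hf.bd _ y hy, fun s y hy => hf.bd' _ y hy,
    fun s y hy => hf.sym _ y hy⟩
  · exact hf.cont.comp hc.continuousOn (fun p hp => hp)
  · exact hf.cont'.comp hc.continuousOn (fun p hp => hp)
  · intro s y hy
    exact (hf.der (s + h) y hy).comp_add_const s h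

theorem JN (hER : ER_stmt) (hJ3 : J3_stmt) (hJ1 : J1_stmt) (hJFD : JFD_stmt) : JN_stmt := by
  intro g hg ε T hε
  obtain ⟨h, hT, hh⟩ := hER g hg ε T hε
  refine ⟨h, hT, fun l l' hl hl' => ?_⟩
  obtain ⟨C, hC, hfd⟩ := hJFD
  obtain ⟨B, hB⟩ := JN_bd g hg 12
  have F0 := hfd g B hg hB
  have F1 := JN_shift _ _ _ h F0
  have e1 : jj g l l' = jf (fun s y => dX (ww g) s 0 y) l l' := rfl
  have e2 : jj g (Real.exp (-h) * l) (Real.exp (-h) * l') =
    jf (fun s y => dX (ww g) s 0 y) (Real.exp (-h) * l) (Real.exp (-h) * l') := rfl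
  rw [e1, e2, hJ3 _ h l l' hl hl']
  obtain ⟨i0, -, -, i2, b2⟩ := hJ1 _ _ _ l l' F0 hl hl'
  obtain ⟨i1, -, -, -, -⟩ := hJ1 _ _ _ l l' F1 hl hl'
  unfold jf
  rw [← mul_sub, ← integral_sub i1 i0, abs_mul, abs_of_pos (by norm_num : (0 : ℝ) < 1 / 2)]
  have h1 : |∫ y in Ioi (0 : ℝ), (1 / √(qq l l' y) *
      (dX (ww g) (-(1 / 2) * Real.log (qq l l' y) + h) 0 y) - 1 / √(qq l l' y) *
      (dX (ww g) (-(1 / 2) * Real.log (qq l l' y)) 0 y))| ≤
      ∫ y in Ioi (0 : ℝ), ε * (1 / (√(qq l l' y) * y)) := by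
    rw [← Real.norm_eq_abs]
    refine norm_integral_le_of_norm_le (i2.const_mul ε) ?_
    refine (ae_restrict_iff' measurableSet_Ioi).2 (Filter.Eventually.of_forall fun y hy => ?_)
    have hy0 : (0 : ℝ) < y := hy
    rw [← mul_sub, norm_mul, Real.norm_eq_abs, Real.norm_eq_abs,
      abs_of_nonneg (by positivity : (0 : ℝ) ≤ 1 / √(qq l l' y))]
    calc 1 / √(qq l l' y) * |dX (ww g) (-(1 / 2) * Real.log (qq l l' y) + h) 0 y -
          dX (ww g) (-(1 / 2) * Real.log (qq l l' y)) 0 y|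
        ≤ 1 / √(qq l l' y) * (ε / y) :=
          mul_le_mul_of_nonneg_left (hh _ y hy0) (by positivity)
      _ = ε * (1 / (√(qq l l' y) * y)) := by
          rw [div_mul_div_comm, one_mul, mul_one_div]
  rw [integral_const_mul] at h1
  calc 1 / 2 * |∫ y in Ioi (0 : ℝ), (1 / √(qq l l' y) *
      (dX (ww g) (-(1 / 2) * Real.log (qq l l' y) + h) 0 y) - 1 / √(qq l l' y) *
      (dX (ww g) (-(1 / 2) * Real.log (qq l l' y)) 0 y))|
      ≤ 1 / 2 * (ε * ∫ y in Ioi (0 : ℝ), 1 / (√(qq l l' y) * y)) :=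
        mul_le_mul_of_nonneg_left h1 (by norm_num)
    _ ≤ 1 / 2 * (ε * (2 * (1 / l + 1 / l'))) := by gcongr
    _ = ε * (1 / l + 1 / l') := by ring

end SF
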