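import Pool.Agent.helper68.SF.SpecE

/-!
Project SF (MP_d52931_gt), block se: module L4: the sup bound for test functions.
-/

set_option autoImplicit false

namespace SF

open MeasureTheory Filter Topology
open scoped ContDiff

theorem L4_sm {v : ℝ × ℝ → ℝ} (hv : ContDiff ℝ ∞ v) (u : ℝ × ℝ) :
    ContDiff ℝ ∞ (fun p => fderiv ℝ v p u) :=
  (hv.fderiv_right (m := ∞) (by simp)).clm_apply contDiff_const

theorem L4_symm {v : ℝ × ℝ → ℝ} (hv : ContDiff ℝ ∞ v) (p : ℝ × ℝ) : py (px v) p = px (py v) p := by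
  have h1 : IsSymmSndFDerivAt ℝ v p := by
    refine ContDiffAt.isSymmSndFDerivAt (n := ∞) hv.contDiffAt ?_
    simp only [minSmoothness_of_isRCLikeNormedField]
    exact WithTop.coe_le_coe.2 (le_top : (2 : ℕ∞) ≤ ⊤)
  have hd : DifferentiableAt ℝ (fderiv ℝ v) p :=
    ((hv.fderiv_right (m := ∞) (by simp)).differentiable (by simp)) p
  have h2 : ∀ u w : ℝ × ℝ, fderiv ℝ (fun q => fderiv ℝ v q u) p w = fderiv ℝ (fderiv ℝ v) p w u := by
    intro u w
    have h3 := hd.hasFDerivAt.clm_apply (hasFDerivAt_const u p)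
    rw [h3.fderiv]
    simp
  show fderiv ℝ (fun q => fderiv ℝ v q (1, 0)) p (0, 1) = fderiv ℝ (fun q => fderiv ℝ v q (0, 1)) p (1, 0)
  rw [h2, h2]
  exact h1 _ _

theorem L4_one {g : ℝ → ℝ} (hg : ContDiff ℝ 1 g) (hc : HasCompactSupport g) (y : ℝ) :
    |g y| ≤ ∫ t, |deriv g t| := by
  rw [← hc.integral_Iic_deriv_eq hg y]
  have hi : Integrable (deriv g) := (hg.continuous_deriv le_rfl).integrable_of_hasCompactSupport
    hc.deriv
  calc |∫ t in Set.Iic y, deriv g t| ≤ ∫ t in Set.Iic y, |deriv g t| := abs_integral_le_integral_abs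
    _ ≤ ∫ t, |deriv g t| := setIntegral_le_integral hi.abs (Eventually.of_forall fun t => abs_nonneg _)

theorem L4_sy {g : ℝ × ℝ → ℝ} (hg : ContDiff ℝ ∞ g) (hc : HasCompactSupport g) (x y : ℝ) :
    |g (x, y)| ≤ ∫ t, |py g (x, t)| := by
  have h1 : ∀ t, HasDerivAt (fun t => g (x, t)) (py g (x, t)) t := by
    intro t
    have h2 : HasFDerivAt g (fderiv ℝ g (x, t)) (x, t) :=
      ((hg.differentiable (by simp)) (x, t)).hasFDerivAt
    have h3 : HasDerivAt (fun t : ℝ => ((x, t) : ℝ × ℝ)) (0, 1) t :=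
      (hasDerivAt_const t x).prodMk (hasDerivAt_id t)
    exact h2.comp_hasDerivAt t h3
  have h2 : deriv (fun t => g (x, t)) = fun t => py g (x, t) := funext fun t => (h1 t).deriv
  have h3 : ContDiff ℝ 1 (fun t => g (x, t)) :=
    (hg.of_le (by simp)).comp (contDiff_const.prodMk contDiff_id)
  have h4 : HasCompactSupport (fun t => g (x, t)) := by
    refine HasCompactSupport.intro (hc.isCompact.image continuous_snd) fun t ht => ?_
    by_contra h5
    exact ht ⟨(x, t), subset_tsupport _ h5, rfl⟩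
  have h5 := L4_one h3 h4 y
  rw [h2] at h5
  exact h5

theorem L4_sx {g : ℝ × ℝ → ℝ} (hg : ContDiff ℝ ∞ g) (hc : HasCompactSupport g) (x y : ℝ) :
    |g (x, y)| ≤ ∫ t, |px g (t, y)| := by
  have h1 : ∀ t, HasDerivAt (fun t => g (t, y)) (px g (t, y)) t := by
    intro t
    have h2 : HasFDerivAt g (fderiv ℝ g (t, y)) (t, y) :=
      ((hg.differentiable (by simp)) (t, y)).hasFDerivAt
    have h3 : HasDerivAt (fun t : ℝ => ((t, y) : ℝ × ℝ)) (1, 0) t :=
      (hasDerivAt_id t).prodMk (hasDerivAt_const t y)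
    exact h2.comp_hasDerivAt t h3
  have h2 : deriv (fun t => g (t, y)) = fun t => px g (t, y) := funext fun t => (h1 t).deriv
  have h3 : ContDiff ℝ 1 (fun t => g (t, y)) :=
    (hg.of_le (by simp)).comp (contDiff_id.prodMk contDiff_const)
  have h4 : HasCompactSupport (fun t => g (t, y)) := by
    refine HasCompactSupport.intro (hc.isCompact.image continuous_fst) fun t ht => ?_
    by_contra h5
    exact ht ⟨(t, y), subset_tsupport _ h5, rfl⟩
  have h5 := L4_one h3 h4 x
  rw [h2] at h5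
  exact h5

theorem L4 : L4_stmt := by
  intro v a b hv hc hsub p
  have hw : ContDiff ℝ ∞ (px v) := L4_sm hv _
  have hwc : HasCompactSupport (px v) := hc.fderiv_apply (𝕜 := ℝ) _
  have hz : ContDiff ℝ ∞ (px (py v)) := L4_sm (L4_sm hv _) _
  have hzc : HasCompactSupport (px (py v)) :=
    (hc.fderiv_apply (𝕜 := ℝ) _).fderiv_apply (𝕜 := ℝ) _
  have hG : ContDiff ℝ ∞ (px (px (py v))) := L4_sm hz _
  have hGc : HasCompactSupport (px (px (py v))) := hzc.fderiv_apply (𝕜 := ℝ) _
  obtain ⟨G, hGd⟩ : ∃ G, G = px (px (py v)) := ⟨_, rfl⟩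
  rw [← hGd] at hG hGc ⊢
  have hi : Integrable G := hG.continuous.integrable_of_hasCompactSupport hGc
  have hi2 : Integrable (fun p => G p ^ 2) := by
    refine (hG.continuous.pow 2).integrable_of_hasCompactSupport ?_
    refine HasCompactSupport.intro hGc.isCompact fun q hq => ?_
    show G q ^ 2 = 0
    rw [image_eq_zero_of_notMem_tsupport hq]
    norm_num
  -- the double integral
  have h1 : |px v p| ≤ ∫ q, |G q| := by
    have h2 : |px v p| ≤ ∫ t, |py (px v) (p.1, t)| := L4_sy hw hwc p.1 p.2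
    have h3 : ∀ t, |py (px v) (p.1, t)| ≤ ∫ x, |G (x, t)| := by
      intro t
      rw [L4_symm hv, hGd]
      exact L4_sx hz hzc p.1 t
    have h4 : ∫ q, |G q| = ∫ t, ∫ x, |G (x, t)| := by
      rw [Measure.volume_eq_prod]
      exact integral_prod_symm _ hi.abs
    rw [h4]
    refine h2.trans (integral_mono ?_ ?_ h3)
    · have h5 : (fun t => |py (px v) (p.1, t)|) = fun t => |px (py v) (p.1, t)| :=
        funext fun t => by rw [L4_symm hv]
      rw [h5]
      have h6 : Continuous (fun t : ℝ => px (py v) (p.1, t)) :=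
        hz.continuous.comp (by fun_prop)
      have h7 : HasCompactSupport (fun t => px (py v) (p.1, t)) := by
        refine HasCompactSupport.intro (hzc.isCompact.image continuous_snd) fun t ht => ?_
        by_contra h5
        exact ht ⟨(p.1, t), subset_tsupport _ h5, rfl⟩
      exact (h6.integrable_of_hasCompactSupport h7).abs
    · have h8 := hi.abs
      rw [Measure.volume_eq_prod] at h8
      exact h8.integral_prod_right
  -- the box
  have hbox : ∀ q, q ∉ Set.Icc a (a + 1 / 2) ×ˢ Set.Icc b (b + 1 / 2) → G q = 0 := by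
    intro q hq
    rw [hGd]
    by_contra h2
    apply hq
    apply hsub
    have e1 : tsupport (px (px (py v))) ⊆ tsupport (px (py v)) := tsupport_fderiv_apply_subset ℝ _
    have e2 : tsupport (px (py v)) ⊆ tsupport (py v) := tsupport_fderiv_apply_subset ℝ _
    have e3 : tsupport (py v) ⊆ tsupport v := tsupport_fderiv_apply_subset ℝ _
    exact e3 (e2 (e1 (subset_tsupport _ h2)))
  have hmeas : MeasurableSet (Set.Icc a (a + 1 / 2) ×ˢ Set.Icc b (b + 1 / 2)) :=
    measurableSet_Icc.prod measurableSet_Icc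
  have hvol : (volume (Set.Icc a (a + 1 / 2) ×ˢ Set.Icc b (b + 1 / 2))).toReal = 1 / 4 := by
    rw [Measure.volume_eq_prod, Measure.prod_prod, Real.volume_Icc, Real.volume_Icc,
      ENNReal.toReal_mul, ENNReal.toReal_ofReal (by linarith), ENNReal.toReal_ofReal (by linarith)]
    ring
  have hfin : volume (Set.Icc a (a + 1 / 2) ×ˢ Set.Icc b (b + 1 / 2)) ≠ ⊤ :=
    (isCompact_Icc.prod isCompact_Icc).measure_lt_top.ne
  have h5 : ∫ q, |G q| = ∫ q in Set.Icc a (a + 1 / 2) ×ˢ Set.Icc b (b + 1 / 2), |G q| := by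
    refine (setIntegral_eq_integral_of_forall_compl_eq_zero fun q hq => ?_).symm
    rw [hbox q hq, abs_zero]
  have h6 : ∫ q, G q ^ 2 = ∫ q in Set.Icc a (a + 1 / 2) ×ˢ Set.Icc b (b + 1 / 2), G q ^ 2 := by
    refine (setIntegral_eq_integral_of_forall_compl_eq_zero fun q hq => ?_).symm
    rw [hbox q hq]
    norm_num
  have h7 : ∀ l : ℝ, 0 < l → ∫ q, |G q| ≤ (l * (∫ q, G q ^ 2) + 1 / (4 * l)) / 2 := by
    intro l hl
    have ic : IntegrableOn (fun _ : ℝ × ℝ => 1 / (2 * l))
        (Set.Icc a (a + 1 / 2) ×ˢ Set.Icc b (b + 1 / 2)) := integrableOn_const hfin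
    have i3 : IntegrableOn (fun q => l / 2 * G q ^ 2 + 1 / (2 * l))
        (Set.Icc a (a + 1 / 2) ×ˢ Set.Icc b (b + 1 / 2)) := (hi2.integrableOn.const_mul (l / 2)).add ic
    have h8 : ∫ q in Set.Icc a (a + 1 / 2) ×ˢ Set.Icc b (b + 1 / 2), |G q| ≤
        ∫ q in Set.Icc a (a + 1 / 2) ×ˢ Set.Icc b (b + 1 / 2), (l / 2 * G q ^ 2 + 1 / (2 * l)) := by
      refine integral_mono hi.abs.integrableOn i3 fun q => ?_
      show |G q| ≤ l / 2 * G q ^ 2 + 1 / (2 * l)
      have h9 : l / 2 * G q ^ 2 + 1 / (2 * l) - |G q| = (l * |G q| - 1) ^ 2 / (2 * l) := by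
        rw [← sq_abs (G q)]
        field_simp
        ring
      have h10 : 0 ≤ (l * |G q| - 1) ^ 2 / (2 * l) := by positivity
      linarith
    rw [integral_add (hi2.integrableOn.const_mul (l / 2)) ic, integral_const_mul, ← h6, ← h5,
      setIntegral_const, measureReal_def, hvol, smul_eq_mul] at h8
    calc ∫ q, |G q| ≤ l / 2 * (∫ q, G q ^ 2) + 1 / 4 * (1 / (2 * l)) := h8
      _ = (l * (∫ q, G q ^ 2) + 1 / (4 * l)) / 2 := by
        field_simp
  have hI : 0 ≤ ∫ q, G q ^ 2 := integral_nonneg fun q => sq_nonneg _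
  by_cases h0 : px v p = 0
  · rw [h0]
    simpa using hI
  · have h8 : 0 < |px v p| := abs_pos.2 h0
    have h9 := h1.trans (h7 (1 / (2 * |px v p|)) (by positivity))
    have h10 : (1 : ℝ) / (4 * (1 / (2 * |px v p|))) = |px v p| / 2 := by
      field_simp
      ring
    rw [h10] at h9
    rw [← sq_abs]
    have h11 : 1 / (2 * |px v p|) * (∫ q, G q ^ 2) * (2 * |px v p|) = ∫ q, G q ^ 2 := by
      field_simp
    nlinarith [mul_le_mul_of_nonneg_right h9 (by positivity : (0 : ℝ) ≤ 2 * |px v p|)]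

end SF
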